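import Mathlib
import Pool.Agent.H48.McL2

set_option autoImplicit false

namespace Pool.Agent.Results.MP_a7b7fa_al.Yes

/-- The pseudocentre: the intersection of the normal closures of the centralizers of elements. -/
def pseudocentre (G : Type) [Group G] : Subgroup G :=
  ⨅ g : G, Subgroup.normalClosure (Subgroup.centralizer {g} : Set G)

/-- A Baer group: every cyclic subgroup is subnormal. -/
def IsBaer (G : Type) [Group G] : Prop := ∀ g : G, (Subgroup.zpowers g).IsSubnormal

/-- A Fitting group: one generated by its nilpotent normal subgroups. -/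
def IsFitting (G : Type) [Group G] : Prop :=
  sSup {N : Subgroup G | N.Normal ∧ Group.IsNilpotent N} = ⊤

open Pool.Agent.H48.McL

theorem result : ∃ (G : Type) (_ : Group G), pseudocentre G = ⊤ ∧ IsBaer G ∧ ¬ IsFitting G := by
  refine ⟨GG, inferInstance, iInf_eq_top.mpr pseudo, baer, fun h => ?_⟩
  have h1 : sSup {N : Subgroup GG | N.Normal ∧ Group.IsNilpotent N} ≤ rt.ker :=
    sSup_le fun N hN => nil_le N hN.1 hN.2
  rw [h] at h1
  exact t_ne 0 1 one_pos (h1 (Subgroup.mem_top (inr (t 0 1 one_pos))))

end Pool.Agent.Results.MP_a7b7fa_al.Yes
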